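import Pool.Agent.R243.HP.Pot

set_option autoImplicit false

/-!
# Finite upper densities and the approximation
-/

namespace Pool.Agent.R243.HP

open MeasureTheory Set Filter Topology Metric
open scoped InnerProductSpace ContDiff Laplacian ENNReal
open Pool.Agent.Helper486.TP (E)

theorem recursion_bound {a : ℕ → ℝ} {B : ℝ} {k1 : ℕ} (hB : 0 ≤ B)
    (h : ∀ k, k1 ≤ k → a (k + 1) ≤ a k / 4 + B) : ∃ C, 0 ≤ C ∧ ∀ k, k1 ≤ k → a k ≤ C := by
  refine ⟨max (a k1) (2 * B), le_max_of_le_right (by linarith), fun k hk => ?_⟩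
  induction k, hk using Nat.le_induction with
  | base => exact le_max_left _ _
  | succ k hk ih =>
    have h1 := h k hk
    have h2 : 2 * B ≤ max (a k1) (2 * B) := le_max_right _ _
    linarith

section
variable {N : ℕ}

theorem ball_int_ge {ν : Measure (E N)} [IsFiniteMeasure ν] {x0 : E N} {r : ℝ} (hr : 0 < r) :
    ν.real (closedBall x0 (r / 2)) ≤ ∫ y, ph x0 r y ∂ν := by
  have hi : Integrable (ph x0 r) ν :=
    (ph_smooth x0 r).continuous.integrable_of_hasCompactSupport (ph_cpt hr)
  rw [← integral_indicator_one (μ := ν) measurableSet_closedBall]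
  refine integral_mono ((integrable_const (1:ℝ)).indicator measurableSet_closedBall) hi fun y => ?_
  by_cases h : y ∈ closedBall x0 (r / 2)
  · rw [indicator_of_mem h, ph_one hr h]
    rfl
  · rw [indicator_of_notMem h]
    exact psi_nonneg _

theorem ball_int_le {ν : Measure (E N)} [IsFiniteMeasure ν] {x0 : E N} {r : ℝ} (hr : 0 < r) :
    ∫ y, ph x0 r y ∂ν ≤ ν.real (closedBall x0 r) := by
  have hi : Integrable (ph x0 r) ν :=
    (ph_smooth x0 r).continuous.integrable_of_hasCompactSupport (ph_cpt hr)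
  rw [← integral_indicator_one (μ := ν) measurableSet_closedBall]
  refine integral_mono hi ((integrable_const (1:ℝ)).indicator measurableSet_closedBall) fun y => ?_
  by_cases h : y ∈ closedBall x0 r
  · rw [indicator_of_mem h]
    exact psi_le _
  · rw [indicator_of_notMem h, ph_zero hr h]

theorem half_pow_pos (k : ℕ) : (0:ℝ) < (1 / 2) ^ k := by positivity

/-- finite density at a point where one of the two parts is negligible -/
theorem density {P M : Measure (E N)} [IsFiniteMeasure P] [IsFiniteMeasure M] {s C0 r0 : ℝ}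
    (hC0 : 0 ≤ C0) (hr0 : 0 < r0) {x0 : E N}
    (hkey : ∀ r, 0 < r → r ≤ r0 → |(∫ y, ph x0 r y ∂P) - ∫ y, ph x0 r y ∂M| ≤ C0 * r ^ s)
    (hsm : ∀ r, 0 < r → r ≤ r0 → M.real (closedBall x0 r) ≤
      1 / (8 * 2 ^ s) * ((P.real (closedBall x0 r)) + M.real (closedBall x0 r))) :
    ∃ C k1, 0 ≤ C ∧ ∀ k : ℕ, k1 ≤ k →
      P.real (closedBall x0 ((1 / 2) ^ k)) + M.real (closedBall x0 ((1 / 2) ^ k)) ≤
        C * ((1 / 2 : ℝ) ^ k) ^ s := by
  obtain ⟨k1, hk1⟩ := exists_pow_lt_of_lt_one hr0 (by norm_num : (1 / 2 : ℝ) < 1)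
  set T : ℕ → ℝ := fun k => P.real (closedBall x0 ((1 / 2) ^ k)) + M.real (closedBall x0 ((1 / 2) ^ k))
    with hT
  set a : ℕ → ℝ := fun k => T k / ((1 / 2 : ℝ) ^ k) ^ s with ha
  have h2s : (0:ℝ) < 2 ^ s := Real.rpow_pos_of_pos two_pos _
  have hps : ∀ k : ℕ, (0:ℝ) < ((1 / 2 : ℝ) ^ k) ^ s := fun k => Real.rpow_pos_of_pos (half_pow_pos k) _
  have hstep : ∀ k, k1 ≤ k → a (k + 1) ≤ a k / 4 + C0 * 2 ^ s := by
    intro k hk
    have hr : (0:ℝ) < (1 / 2) ^ k := half_pow_pos k
    have hle : ((1:ℝ) / 2) ^ k ≤ r0 :=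
      (pow_le_pow_of_le_one (by norm_num) (by norm_num) hk).trans hk1.le
    have e1 := abs_le.1 (hkey _ hr hle)
    have e2 := hsm _ hr hle
    have e3 := ball_int_ge (ν := P) (x0 := x0) hr
    have e4 := ball_int_le (ν := M) (x0 := x0) hr
    have e5 : ((1:ℝ) / 2) ^ k / 2 = (1 / 2) ^ (k + 1) := by
      rw [pow_succ]
      ring
    rw [e5] at e3
    have e6 : M.real (closedBall x0 ((1 / 2) ^ (k + 1))) ≤ M.real (closedBall x0 ((1 / 2) ^ k)) := by
      refine measureReal_mono (closedBall_subset_closedBall ?_) (measure_ne_top _ _)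
      exact pow_le_pow_of_le_one (by norm_num) (by norm_num) (Nat.le_succ k)
    have e7 : T (k + 1) ≤ 2 * (1 / (8 * 2 ^ s) * T k) + C0 * ((1 / 2 : ℝ) ^ k) ^ s := by
      simp only [hT]
      linarith [e1.2]
    have e8 : ((1 / 2 : ℝ) ^ (k + 1)) ^ s = ((1 / 2 : ℝ) ^ k) ^ s * (2 ^ s)⁻¹ := by
      rw [pow_succ, Real.mul_rpow (by positivity) (by norm_num), one_div, Real.inv_rpow (by norm_num)]
    have e9 : a (k + 1) = T (k + 1) * 2 ^ s / ((1 / 2 : ℝ) ^ k) ^ s := by
      simp only [ha]
      rw [e8]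
      have := (hps k).ne'
      field_simp
    rw [e9]
    have e10 : T (k + 1) * 2 ^ s / ((1 / 2 : ℝ) ^ k) ^ s ≤
        (2 * (1 / (8 * 2 ^ s) * T k) + C0 * ((1 / 2 : ℝ) ^ k) ^ s) * 2 ^ s / ((1 / 2 : ℝ) ^ k) ^ s := by
      refine div_le_div_of_nonneg_right (mul_le_mul_of_nonneg_right e7 h2s.le) (hps k).le
    refine e10.trans (le_of_eq ?_)
    simp only [ha]
    have := (hps k).ne'
    field_simp
    ring
  obtain ⟨C, hC0', hC⟩ := recursion_bound (a := a) (by positivity) hstep
  refine ⟨C, k1, hC0', fun k hk => ?_⟩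
  have h1 := hC k hk
  simp only [ha] at h1
  rw [div_le_iff₀ (hps k)] at h1
  exact h1

/-- comparison with the Hausdorff measure -/
theorem cover {τ : Measure (E N)} [IsFiniteMeasure τ] {s t : ℝ} (hs : 0 < s) (ht : 0 < t)
    {A : Set (E N)} (hA : MeasurableSet A) {k0 : ℕ}
    (h : ∀ x ∈ A, ∀ k, k0 ≤ k → τ (closedBall x ((1 / 2) ^ k)) ≤ ENNReal.ofReal (t * ((1 / 2 : ℝ) ^ k) ^ s)) :
    τ.restrict A ≤ ENNReal.ofReal (t * 2 ^ s) • Measure.hausdorffMeasure s := by
  have h2s : (0:ℝ) < 2 ^ s := Real.rpow_pos_of_pos two_pos _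
  have hc0 : ENNReal.ofReal (t * 2 ^ s) ≠ 0 := by
    rw [Ne, ENNReal.ofReal_eq_zero, not_le]
    positivity
  have hct : ENNReal.ofReal (t * 2 ^ s) ≠ ⊤ := ENNReal.ofReal_ne_top
  have key : (ENNReal.ofReal (t * 2 ^ s))⁻¹ • τ.restrict A ≤ Measure.hausdorffMeasure s := by
    refine Measure.le_hausdorffMeasure s _ (ENNReal.ofReal ((1 / 2) ^ k0))
      (ENNReal.ofReal_pos.2 (half_pow_pos k0)) fun U hU => ?_
    rw [Measure.smul_apply, smul_eq_mul, Measure.restrict_apply' hA]
    rw [ENNReal.inv_mul_le_iff hc0 hct]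
    rcases Set.eq_empty_or_nonempty (U ∩ A) with he | ⟨x, hxU, hxA⟩
    · rw [he, measure_empty]
      exact zero_le
    have hfin : ediam U ≠ ⊤ := ne_top_of_le_ne_top ENNReal.ofReal_ne_top hU
    set d : ℝ := (ediam U).toReal with hd
    have hdU : ediam U = ENNReal.ofReal d := (ENNReal.ofReal_toReal hfin).symm
    have hd0 : 0 ≤ d := ENNReal.toReal_nonneg
    have hsub : U ⊆ closedBall x d := by
      intro y hy
      rw [mem_closedBall, dist_edist]
      exact ENNReal.toReal_mono hfin (edist_le_ediam_of_mem hy hxU)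
    have hdk : d ≤ (1 / 2) ^ k0 := by
      rw [hdU] at hU
      exact (ENNReal.ofReal_le_ofReal_iff (half_pow_pos k0).le).1 hU
    rcases hd0.eq_or_lt with hz | hpos
    · -- diameter zero
      have h1 : ∀ k, k0 ≤ k → τ (U ∩ A) ≤ ENNReal.ofReal (t * ((1 / 2 : ℝ) ^ k) ^ s) := by
        intro k hk
        refine le_trans (measure_mono ?_) (h x hxA k hk)
        intro y hy
        have := hsub hy.1
        rw [← hz] at this
        exact closedBall_subset_closedBall (half_pow_pos k).le this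
      have h2 : Tendsto (fun k : ℕ => ENNReal.ofReal (t * ((1 / 2 : ℝ) ^ k) ^ s)) atTop (𝓝 0) := by
        have h3 : Tendsto (fun k : ℕ => t * ((1 / 2 : ℝ) ^ k) ^ s) atTop (𝓝 (t * (0:ℝ) ^ s)) := by
          refine Tendsto.const_mul _ (Tendsto.rpow_const ?_ (Or.inr hs.le))
          exact tendsto_pow_atTop_nhds_zero_of_lt_one (by norm_num) (by norm_num)
        rw [Real.zero_rpow hs.ne', mul_zero] at h3
        have h4 := ENNReal.tendsto_ofReal h3
        rwa [ENNReal.ofReal_zero] at h4
      have h5 : τ (U ∩ A) ≤ 0 := ge_of_tendsto h2 (by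
        filter_upwards [eventually_ge_atTop k0] with k hk
        exact h1 k hk)
      exact h5.trans zero_le
    · have hd1 : d / (1 / 2) ^ k0 ≤ 1 := (div_le_one (half_pow_pos k0)).2 hdk
      obtain ⟨m, hm1, hm2⟩ := exists_nat_pow_near_of_lt_one (x := d / (1 / 2) ^ k0) (y := 1 / 2)
        (div_pos hpos (half_pow_pos k0)) hd1 (by norm_num) (by norm_num)
      rw [lt_div_iff₀ (half_pow_pos k0)] at hm1
      rw [div_le_iff₀ (half_pow_pos k0)] at hm2
      rw [← pow_add] at hm1 hm2
      have h1 : τ (U ∩ A) ≤ τ (closedBall x ((1 / 2) ^ (m + k0))) := by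
        refine measure_mono fun y hy => ?_
        exact closedBall_subset_closedBall hm2 (hsub hy.1)
      refine h1.trans ((h x hxA (m + k0) (by omega)).trans ?_)
      rw [hdU, ENNReal.ofReal_rpow_of_pos hpos, ← ENNReal.ofReal_mul (by positivity)]
      apply ENNReal.ofReal_le_ofReal
      rw [mul_assoc, ← Real.mul_rpow (by norm_num) hd0]
      refine mul_le_mul_of_nonneg_left (Real.rpow_le_rpow (by positivity) ?_ hs.le) ht.le
      have e : ((1:ℝ) / 2) ^ (m + 1 + k0) = (1 / 2) ^ (m + k0) / 2 := by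
        rw [show m + 1 + k0 = (m + k0) + 1 by ring, pow_succ]
        ring
      rw [e] at hm1
      linarith
  intro U
  have h3 := key U
  rw [Measure.smul_apply, smul_eq_mul, ENNReal.inv_mul_le_iff hc0 hct] at h3
  rw [Measure.smul_apply, smul_eq_mul]
  exact h3

/-- restriction of a Jordan decomposition -/
noncomputable def jres (J : JordanDecomposition (E N)) (A : Set (E N)) : JordanDecomposition (E N) where
  posPart := J.posPart.restrict A
  negPart := J.negPart.restrict A
  mutuallySingular := J.mutuallySingular.mono Measure.restrict_le_self Measure.restrict_le_self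

theorem tv_jres (μ : SignedMeasure (E N)) (A : Set (E N)) :
    (jres μ.toJordanDecomposition A).toSignedMeasure.totalVariation = μ.totalVariation.restrict A := by
  unfold SignedMeasure.totalVariation
  rw [JordanDecomposition.toJordanDecomposition_toSignedMeasure, Measure.restrict_add]
  rfl

theorem jres_sub (μ : SignedMeasure (E N)) {A : Set (E N)} (hA : MeasurableSet A) :
    (jres μ.toJordanDecomposition A).toSignedMeasure - μ =
      -(jres μ.toJordanDecomposition Aᶜ).toSignedMeasure := by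
  have h0 : μ = μ.toJordanDecomposition.toSignedMeasure :=
    (SignedMeasure.toSignedMeasure_toJordanDecomposition μ).symm
  ext B hB
  conv_lhs => rw [sub_apply]; arg 2; rw [h0]
  rw [neg_apply]
  unfold JordanDecomposition.toSignedMeasure jres
  simp only [sub_apply, Measure.toSignedMeasure_apply_measurable hB,
    measureReal_restrict_apply hB]
  have e1 : ∀ ν : Measure (E N), IsFiniteMeasure ν → ν.real B = ν.real (B ∩ A) + ν.real (B ∩ Aᶜ) := by
    intro ν hν
    rw [← Set.sdiff_eq, measureReal_inter_add_sdiff hA]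
  rw [e1 μ.toJordanDecomposition.posPart inferInstance, e1 μ.toJordanDecomposition.negPart inferInstance]
  ring

theorem tv_sub (μ : SignedMeasure (E N)) {A : Set (E N)} (hA : MeasurableSet A) :
    ((jres μ.toJordanDecomposition A).toSignedMeasure - μ).totalVariation =
      μ.totalVariation.restrict Aᶜ := by
  rw [jres_sub μ hA, SignedMeasure.totalVariation_neg, tv_jres]

/-- main theorem -/
theorem main (hN : 2 ≤ N) {Ω : Set (E N)} (hO : IsOpen Ω) (hΩ : Bornology.IsBounded Ω) {β : ℝ}
    (hβ : 0 < β) {μ : SignedMeasure (E N)} (hμ : μ.totalVariation Ωᶜ = 0) {v : E N → ℝ} {H : ℝ}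
    (hv : ∀ x ∈ Ω, ∀ y ∈ Ω, |v x - v y| ≤ H * ‖x - y‖ ^ β)
    (hae : ∀ᵐ x ∂(volume.restrict Ω), pot μ x = v x) {c : ℝ} (hc : 0 < c) :
    ∃ ν : ℕ → SignedMeasure (E N), (∀ n, (ν n).totalVariation Ωᶜ = 0) ∧
      (∀ n (A : Set (E N)), MeasurableSet A → (ν n).totalVariation A ≤
        ENNReal.ofReal (c * n) * Measure.hausdorffMeasure ((N:ℝ) - 2 + β) A) ∧
      Tendsto (fun n => (ν n - μ).totalVariation univ) atTop (𝓝 0) := by
  have hv' : ∀ x ∈ Ω, ∀ y ∈ Ω, |v x - v y| ≤ max H 0 * ‖x - y‖ ^ β := fun x hx y hy =>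
    (hv x hx y hy).trans (mul_le_mul_of_nonneg_right (le_max_left _ _) (by positivity))
  obtain ⟨C0, hC0, hkey⟩ := key hN hΩ hμ hβ (le_max_right _ _) hv' hae hO.measurableSet
  set s : ℝ := (N:ℝ) - 2 + β with hs
  have hs0 : 0 < s := by
    have : (2:ℝ) ≤ N := by exact_mod_cast hN
    rw [hs]
    linarith
  have h2s : (0:ℝ) < 2 ^ s := Real.rpow_pos_of_pos two_pos _
  set τ : Measure (E N) := μ.totalVariation with hτ
  set P : Measure (E N) := μ.toJordanDecomposition.posPart with hP
  set M : Measure (E N) := μ.toJordanDecomposition.negPart with hM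
  have hτPM : τ = P + M := rfl
  have hτfin : IsFiniteMeasure τ := by
    rw [hτPM]
    infer_instance
  have hreal : ∀ U : Set (E N), τ.real U = P.real U + M.real U := by
    intro U
    rw [hτPM, measureReal_add_apply]
  obtain ⟨S, hSm, hPS, hMS⟩ := μ.toJordanDecomposition.mutuallySingular
  have hPS' : ∀ U : Set (E N), P U ≤ τ (Sᶜ ∩ U) := by
    intro U
    calc P U ≤ P (S ∪ Sᶜ ∩ U) := measure_mono fun y hy => by
          by_cases h : y ∈ S
          · exact Or.inl h
          · exact Or.inr ⟨h, hy⟩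
      _ ≤ P S + P (Sᶜ ∩ U) := measure_union_le _ _
      _ = P (Sᶜ ∩ U) := by rw [hPS, zero_add]
      _ ≤ τ (Sᶜ ∩ U) := by
          rw [hτPM, Measure.add_apply]
          exact le_self_add
  have hMS' : ∀ U : Set (E N), M U ≤ τ (S ∩ U) := by
    intro U
    calc M U ≤ M (Sᶜ ∪ S ∩ U) := measure_mono fun y hy => by
          by_cases h : y ∈ S
          · exact Or.inr ⟨h, hy⟩
          · exact Or.inl h
      _ ≤ M Sᶜ + M (S ∩ U) := measure_union_le _ _
      _ = M (S ∩ U) := by rw [hMS, zero_add]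
      _ ≤ τ (S ∩ U) := by
          rw [hτPM, Measure.add_apply]
          exact le_add_self
  have hε : (0:ℝ) < 1 / (8 * 2 ^ s) := by positivity
  -- smallness from the density theorem
  have small : ∀ (W : Set (E N)) (Q : Measure (E N)) (_ : IsFiniteMeasure Q),
      (∀ U : Set (E N), Q U ≤ τ (W ∩ U)) → ∀ x : E N,
      Tendsto (fun r => τ (W ∩ closedBall x r) / τ (closedBall x r)) (𝓝[>] 0) (𝓝 0) →
      ∃ r1 : ℝ, 0 < r1 ∧ ∀ r, 0 < r → r ≤ r1 → Q.real (closedBall x r) ≤
        1 / (8 * 2 ^ s) * (τ.real (closedBall x r)) := by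
    intro W Q hQf hQ x hx
    have h1 : ∀ᶠ r in 𝓝[>] (0:ℝ), τ (W ∩ closedBall x r) / τ (closedBall x r) <
        ENNReal.ofReal (1 / (8 * 2 ^ s)) := hx.eventually_lt_const (ENNReal.ofReal_pos.2 hε)
    rw [eventually_nhdsWithin_iff, Metric.eventually_nhds_iff] at h1
    obtain ⟨ρ, hρ, h2⟩ := h1
    refine ⟨ρ / 2, by positivity, fun r hr hrρ => ?_⟩
    have h3 := h2 (y := r) (by rw [dist_zero_right, Real.norm_of_nonneg hr.le]; linarith) hr
    have h4 : τ (W ∩ closedBall x r) ≤ ENNReal.ofReal (1 / (8 * 2 ^ s)) * τ (closedBall x r) := by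
      rcases eq_or_ne (τ (closedBall x r)) 0 with h0 | h0
      · have : τ (W ∩ closedBall x r) = 0 := measure_mono_null inter_subset_right h0
        rw [this]
        exact zero_le
      · exact (ENNReal.div_le_iff h0 (measure_ne_top _ _)).1 h3.le
    have h5 := (hQ (closedBall x r)).trans h4
    have h6 : Q.real (closedBall x r) ≤ (ENNReal.ofReal (1 / (8 * 2 ^ s)) * τ (closedBall x r)).toReal := by
      refine ENNReal.toReal_mono ?_ h5
      exact ENNReal.mul_ne_top ENNReal.ofReal_ne_top (measure_ne_top _ _)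
    rw [ENNReal.toReal_mul, ENNReal.toReal_ofReal hε.le] at h6
    exact h6
  have hD1 := Besicovitch.ae_tendsto_measure_inter_div_of_measurableSet τ hSm
  have hD2 := Besicovitch.ae_tendsto_measure_inter_div_of_measurableSet τ hSm.compl
  have haeΩ : ∀ᵐ x ∂τ, x ∈ Ω := by
    rw [ae_iff]
    exact hμ
  have hfinal : ∀ᵐ x ∂τ, ∃ C k1, 0 ≤ C ∧ ∀ k : ℕ, k1 ≤ k →
      τ.real (closedBall x ((1 / 2) ^ k)) ≤ C * ((1 / 2 : ℝ) ^ k) ^ s := by
    filter_upwards [hD1, hD2, haeΩ] with x h1 h2 hxΩ
    obtain ⟨ρ, hρ, hball⟩ := Metric.isOpen_iff.1 hO x hxΩ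
    by_cases hxS : x ∈ S
    · -- the positive part is negligible
      have h3 : Tendsto (fun r => τ (Sᶜ ∩ closedBall x r) / τ (closedBall x r)) (𝓝[>] 0) (𝓝 0) := by
        have : Sᶜ.indicator (1 : E N → ℝ≥0∞) x = 0 := indicator_of_notMem (Set.notMem_compl_iff.2 hxS) _
        rw [this] at h2
        exact h2
      obtain ⟨r1, hr1, hsm⟩ := small Sᶜ P inferInstance hPS' x h3
      obtain ⟨C, k1, hC, hk⟩ := density (P := M) (M := P) (s := s) (C0 := C0) (r0 := min r1 (ρ / 2))
        (x0 := x) hC0 (lt_min hr1 (by positivity)) (fun r hr hr' => by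
          rw [abs_sub_comm]
          exact hkey x r hr ((closedBall_subset_ball (by
            have := hr'.trans (min_le_right _ _)
            linarith)).trans hball)) (fun r hr hr' => by
          have := hsm r hr (hr'.trans (min_le_left _ _))
          rw [hreal, add_comm] at this
          exact this)
      refine ⟨C, k1, hC, fun k hkk => ?_⟩
      rw [hreal, add_comm]
      exact hk k hkk
    · have h3 : Tendsto (fun r => τ (S ∩ closedBall x r) / τ (closedBall x r)) (𝓝[>] 0) (𝓝 0) := by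
        have : S.indicator (1 : E N → ℝ≥0∞) x = 0 := indicator_of_notMem hxS _
        rw [this] at h1
        exact h1
      obtain ⟨r1, hr1, hsm⟩ := small S M inferInstance hMS' x h3
      obtain ⟨C, k1, hC, hk⟩ := density (P := P) (M := M) (s := s) (C0 := C0) (r0 := min r1 (ρ / 2))
        (x0 := x) hC0 (lt_min hr1 (by positivity)) (fun r hr hr' =>
          hkey x r hr ((closedBall_subset_ball (by
            have := hr'.trans (min_le_right _ _)
            linarith)).trans hball)) (fun r hr hr' => by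
          have := hsm r hr (hr'.trans (min_le_left _ _))
          rw [hreal] at this
          exact this)
      refine ⟨C, k1, hC, fun k hkk => ?_⟩
      rw [hreal]
      exact hk k hkk
  -- the sets
  set c' : ℝ := c / 2 ^ s with hc'
  have hc'0 : 0 < c' := by positivity
  set A : ℕ → Set (E N) := fun n => {x | 0 < n ∧ ∀ k, n ≤ k →
    τ (closedBall x ((1 / 2) ^ k)) ≤ ENNReal.ofReal (c' * n * ((1 / 2 : ℝ) ^ k) ^ s)} with hA
  have hAm : ∀ n, MeasurableSet (A n) := by
    intro n
    have h1 : ∀ r : ℝ, Measurable fun x : E N => τ (closedBall x r) := by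
      intro r
      have h2 : MeasurableSet {p : E N × E N | dist p.2 p.1 ≤ r} :=
        measurableSet_le (measurable_snd.dist measurable_fst) measurable_const
      exact measurable_measure_prodMk_left h2
    have h3 : A n = {x | 0 < n} ∩ ⋂ k : ℕ, {x | n ≤ k →
        τ (closedBall x ((1 / 2) ^ k)) ≤ ENNReal.ofReal (c' * n * ((1 / 2 : ℝ) ^ k) ^ s)} := by
      ext x
      simp [hA]
    rw [h3]
    refine (MeasurableSet.const _).inter (MeasurableSet.iInter fun k => ?_)
    by_cases hk : n ≤ k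
    · simp only [hk, true_imp_iff]
      exact measurableSet_le (h1 _) measurable_const
    · simp only [hk, false_imp_iff]
      exact MeasurableSet.univ
  have hAmono : Monotone A := by
    intro n m hnm x hx
    refine ⟨lt_of_lt_of_le hx.1 hnm, fun k hk => (hx.2 k (hnm.trans hk)).trans ?_⟩
    apply ENNReal.ofReal_le_ofReal
    have h1 : (n:ℝ) ≤ m := by exact_mod_cast hnm
    have h2 : 0 ≤ ((1 / 2 : ℝ) ^ k) ^ s := by positivity
    refine mul_le_mul_of_nonneg_right (mul_le_mul_of_nonneg_left h1 hc'0.le) h2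
  have hAU : ∀ᵐ x ∂τ, x ∈ ⋃ n, A n := by
    filter_upwards [hfinal] with x hx
    obtain ⟨C, k1, hC, hk⟩ := hx
    obtain ⟨n0, hn0⟩ := exists_nat_ge (C / c')
    rw [mem_iUnion]
    refine ⟨max (max n0 k1) 1, lt_of_lt_of_le one_pos (le_max_right _ _), fun k hkk => ?_⟩
    have hk1 : k1 ≤ k := ((le_max_right n0 k1).trans (le_max_left _ 1)).trans hkk
    have h1 := hk k hk1
    rw [← ENNReal.ofReal_toReal (measure_ne_top τ _)]
    apply ENNReal.ofReal_le_ofReal
    refine le_trans h1 (mul_le_mul_of_nonneg_right ?_ (by positivity))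
    have h2 : (n0:ℝ) ≤ ((max (max n0 k1) 1 : ℕ) : ℝ) := by
      exact_mod_cast (le_max_left n0 k1).trans (le_max_left _ 1)
    rw [div_le_iff₀ hc'0] at hn0
    calc C ≤ n0 * c' := hn0
      _ ≤ ((max (max n0 k1) 1 : ℕ) : ℝ) * c' := mul_le_mul_of_nonneg_right h2 hc'0.le
      _ = _ := mul_comm _ _
  refine ⟨fun n => (jres μ.toJordanDecomposition (A n)).toSignedMeasure, fun n => ?_, fun n B hB => ?_, ?_⟩
  · rw [tv_jres]
    exact le_antisymm ((Measure.restrict_apply_le _ _).trans hμ.le) zero_le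
  · rw [tv_jres]
    rcases Nat.eq_zero_or_pos n with h0 | hpos
    · have : A n = ∅ := by
        ext x
        simp [hA, h0]
      rw [this, Measure.restrict_empty]
      simp
    · have hn : (0:ℝ) < n := by exact_mod_cast hpos
      have h1 := cover (τ := τ) (s := s) (t := c' * n) hs0 (by positivity) (hAm n) (k0 := n)
        (fun x hx k hk => hx.2 k hk)
      have h2 := h1 B
      rw [Measure.smul_apply, smul_eq_mul] at h2
      have h3 : c' * n * 2 ^ s = c * n := by
        rw [hc']
        field_simp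
      rw [h3] at h2
      exact h2
  · have h1 : ∀ n, ((jres μ.toJordanDecomposition (A n)).toSignedMeasure - μ).totalVariation univ =
        τ (A n)ᶜ := by
      intro n
      rw [tv_sub μ (hAm n), Measure.restrict_apply_univ]
    simp_rw [h1]
    have h2 : Tendsto (fun n => τ (A n)ᶜ) atTop (𝓝 (τ (⋂ n, (A n)ᶜ))) := by
      refine tendsto_measure_iInter_atTop (fun n => (hAm n).compl.nullMeasurableSet)
        (fun n m hnm => compl_subset_compl.2 (hAmono hnm)) ⟨0, measure_ne_top _ _⟩
    have h3 : τ (⋂ n, (A n)ᶜ) = 0 := by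
      rw [← compl_iUnion]
      exact hAU
    rwa [h3] at h2

end

end Pool.Agent.R243.HP
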