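import Pool.Agent.Helper486.TP.NewtonLap

set_option autoImplicit false

/-!
# The fundamental solution of `-Δ` in `ℝ^N`, `N ≥ 2`
-/

namespace Pool.Agent.R243.HP

open MeasureTheory Set Filter Topology Metric
open scoped InnerProductSpace ContDiff Laplacian ENNReal
open Pool.Agent.Helper486.TP (newton E)
open Pool.Agent.Helper486

/-- The fundamental solution of `-Δ` in `ℝ^N`: `-log |x| / (2π)` for `N = 2`, and
`|x|^(2-N) / (N (N-2) ω_N)` for `N ≥ 3`, where `ω_N` is the volume of the unit ball. -/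
noncomputable def Gam (N : ℕ) (x : EuclideanSpace ℝ (Fin N)) : ℝ :=
  if N = 2 then -Real.log ‖x‖ / (2 * Real.pi)
  else ‖x‖ ^ (2 - (N : ℝ)) /
    (N * (N - 2) * volume.real (Metric.ball (0 : EuclideanSpace ℝ (Fin N)) 1))

theorem Gam_meas (N : ℕ) : Measurable (Gam N) := by
  unfold Gam
  split_ifs
  · exact ((Real.measurable_log.comp measurable_norm).neg).div_const _
  · exact (measurable_norm.pow_const _).div_const _

/-! ### the logarithm in the plane -/

noncomputable def le (ε : ℝ) (a y : E 2) : ℝ := -(1 / 2) * Real.log (‖y - a‖ ^ 2 + ε ^ 2)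

theorem le_contDiff {ε : ℝ} (hε : 0 < ε) (a : E 2) : ContDiff ℝ ∞ (le ε a) := by
  unfold le
  refine contDiff_const.mul (ContDiff.log ?_ ?_)
  · exact ((contDiff_id.sub contDiff_const).norm_sq ℝ).add contDiff_const
  · intro x
    have : 0 < ‖x - a‖ ^ 2 + ε ^ 2 := by positivity
    exact this.ne'

theorem le_D {ε : ℝ} (hε : 0 < ε) (a y : E 2) (i : Fin 2) :
    fderiv ℝ (le ε a) y (EuclideanSpace.basisFun (Fin 2) ℝ i)
      = -((y i - a i) * (‖y - a‖ ^ 2 + ε ^ 2) ^ (-(1:ℝ))) := by
  have h1 : HasFDerivAt (fun y : E 2 => y - a) (ContinuousLinearMap.id ℝ (E 2)) y :=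
    (hasFDerivAt_id y).sub_const a
  have h2 : HasFDerivAt (fun y : E 2 => ‖y - a‖ ^ 2 + ε ^ 2) (2 • (innerSL ℝ (y - a))) y := by
    have := h1.norm_sq.add_const (ε ^ 2)
    simpa using this
  have hpos : 0 < ‖y - a‖ ^ 2 + ε ^ 2 := by positivity
  have h3 := ((h2.log hpos.ne').const_mul (-(1 / 2))).fderiv
  change fderiv ℝ (fun y : E 2 => -(1 / 2) * Real.log (‖y - a‖ ^ 2 + ε ^ 2)) y _ = _
  rw [h3, Real.rpow_neg_one]
  simp [real_inner_comm, EuclideanSpace.inner_single_left, EuclideanSpace.inner_single_right]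
  ring

theorem le_DD {ε : ℝ} (hε : 0 < ε) (a y : E 2) (i : Fin 2) :
    fderiv ℝ (fun z => fderiv ℝ (le ε a) z (EuclideanSpace.basisFun (Fin 2) ℝ i)) y
        (EuclideanSpace.basisFun (Fin 2) ℝ i)
      = -((‖y - a‖ ^ 2 + ε ^ 2) ^ (-(1:ℝ))
          - 2 * (y i - a i) ^ 2 * (‖y - a‖ ^ 2 + ε ^ 2) ^ (-(1:ℝ) - 1)) := by
  have h0 : (fun z => fderiv ℝ (le ε a) z (EuclideanSpace.basisFun (Fin 2) ℝ i))
      = fun z : E 2 => -((z i - a i) * (‖z - a‖ ^ 2 + ε ^ 2) ^ (-(1:ℝ))) := by
    ext z; exact le_D hε a z i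
  rw [h0]
  have h1 := TP.hasFDerivAt_g ε (-(1:ℝ)) hε a y
  have h2 : HasFDerivAt (fun z : E 2 => z i - a i) (EuclideanSpace.proj i : E 2 →L[ℝ] ℝ) y := by
    exact (EuclideanSpace.proj i : E 2 →L[ℝ] ℝ).hasFDerivAt.sub_const (a i)
  have h3 := (h2.mul h1).neg
  have h5 : fderiv ℝ (fun z : E 2 => -((z i - a i) * (‖z - a‖ ^ 2 + ε ^ 2) ^ (-(1:ℝ)))) y = _ := h3.fderiv
  rw [h5]
  simp [EuclideanSpace.inner_single_right]
  ring

theorem le_lap {ε : ℝ} (hε : 0 < ε) (a y : E 2) :
    ∑ i, fderiv ℝ (fun z => fderiv ℝ (le ε a) z (EuclideanSpace.basisFun (Fin 2) ℝ i)) y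
        (EuclideanSpace.basisFun (Fin 2) ℝ i)
      = -(2 * (ε ^ 2 * (‖y - a‖ ^ 2 + ε ^ 2) ^ (-(2:ℝ)))) := by
  simp_rw [le_DD hε a y]
  rw [Finset.sum_neg_distrib, Finset.sum_sub_distrib, ← Finset.sum_mul, ← Finset.mul_sum]
  have h1 : ∑ i, (y i - a i) ^ 2 = ‖y - a‖ ^ 2 := by
    rw [EuclideanSpace.norm_sq_eq]
    apply Finset.sum_congr rfl
    intro i _
    simp
  rw [h1]
  have hpos : 0 < ‖y - a‖ ^ 2 + ε ^ 2 := by positivity
  have h2 : (‖y - a‖ ^ 2 + ε ^ 2) ^ (-(1:ℝ))
      = (‖y - a‖ ^ 2 + ε ^ 2) ^ (-(2:ℝ)) * (‖y - a‖ ^ 2 + ε ^ 2) := by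
    rw [← Real.rpow_add_one hpos.ne']
    congr 1; ring
  have h3 : -(1:ℝ) - 1 = -(2:ℝ) := by ring
  rw [h3]
  simp only [Finset.sum_const, Finset.card_univ, Fintype.card_fin, nsmul_eq_mul]
  rw [h2]
  push_cast
  ring

theorem green2 {ε : ℝ} (hε : 0 < ε) {φ : E 2 → ℝ} (hφ : ContDiff ℝ ∞ φ)
    (hs : HasCompactSupport φ) (a : E 2) :
    ∫ y, le ε a y * (Δ φ) y
      = ∫ y, -(2 * (ε ^ 2 * (‖y - a‖ ^ 2 + ε ^ 2) ^ (-(2:ℝ)))) * φ y := by
  have hD : ∀ {ψ : E 2 → ℝ}, ContDiff ℝ ∞ ψ → ∀ v : E 2, ContDiff ℝ ∞ (fun z => fderiv ℝ ψ z v) := by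
    intro ψ h v
    exact (h.fderiv_right (m := ∞) (by norm_cast)).clm_apply contDiff_const
  have hfe := le_contDiff hε a
  simp_rw [← le_lap hε a, TP.nl_lap_eq hφ, Finset.mul_sum, Finset.sum_mul]
  rw [integral_finsetSum, integral_finsetSum]
  · apply Finset.sum_congr rfl
    intro i _
    set v := EuclideanSpace.basisFun (Fin 2) ℝ i
    rw [TP.int_parts (le ε a) (fun z => fderiv ℝ φ z v) (hfe.of_le (by norm_cast)) ((hD hφ v).of_le (by norm_cast)) (hs.fderiv_apply (𝕜 := ℝ) v) v]
    rw [TP.int_parts (fun z => fderiv ℝ (le ε a) z v) φ ((hD hfe v).of_le (by norm_cast)) (hφ.of_le (by norm_cast)) hs v]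
    ring
  · intro i _
    refine Continuous.integrable_of_hasCompactSupport ?_ (hs.mul_left)
    exact (hD (hD hfe _) _).continuous.mul hφ.continuous
  · intro i _
    refine Continuous.integrable_of_hasCompactSupport ?_ (HasCompactSupport.mul_left ?_)
    · exact hfe.continuous.mul (hD (hD hφ _) _).continuous
    · exact (hs.fderiv_apply (𝕜 := ℝ) _).fderiv_apply (𝕜 := ℝ) _

theorem kint2 : Integrable (fun w : E 2 => ((1 : ℝ) + ‖w‖ ^ 2) ^ (-(2:ℝ))) := by
  have h := TP.kint (n := 2)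
  refine h.congr (Eventually.of_forall fun w => ?_)
  beta_reduce
  congr 1
  norm_num

theorem subst2 {ε : ℝ} (hε : 0 < ε) (φ : E 2 → ℝ) (a : E 2) :
    ∫ y, -(2 * (ε ^ 2 * (‖y - a‖ ^ 2 + ε ^ 2) ^ (-(2:ℝ)))) * φ y
      = -∫ w : E 2, 2 * ((1 : ℝ) + ‖w‖ ^ 2) ^ (-(2:ℝ)) * φ (a + ε • w) := by
  rw [← integral_add_left_eq_self _ a]
  have h := Measure.integral_comp_smul_of_nonneg (volume : Measure (E 2))
    (fun y => -(2 * (ε ^ 2 * (‖a + y - a‖ ^ 2 + ε ^ 2) ^ (-(2:ℝ)))) * φ (a + y)) ε (hR := hε.le)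
  have hd : Module.finrank ℝ (E 2) = 2 := by simp [E]
  rw [hd] at h
  have hεn : ε ^ 2 ≠ 0 := by positivity
  have h2 : ∫ y, -(2 * (ε ^ 2 * (‖a + y - a‖ ^ 2 + ε ^ 2) ^ (-(2:ℝ)))) * φ (a + y)
      = ε ^ 2 * ∫ x : E 2, -(2 * (ε ^ 2 * (‖a + ε • x - a‖ ^ 2 + ε ^ 2) ^ (-(2:ℝ)))) * φ (a + ε • x) := by
    rw [h, smul_eq_mul, mul_inv_cancel_left₀ hεn]
  rw [h2, ← integral_const_mul, ← integral_neg]
  congr 1
  ext w
  have h3 : ‖a + ε • w - a‖ ^ 2 + ε ^ 2 = ε ^ 2 * (1 + ‖w‖ ^ 2) := by
    rw [add_sub_cancel_left, norm_smul, Real.norm_of_nonneg hε.le]; ring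
  have h4 : (ε ^ 2 * (1 + ‖w‖ ^ 2)) ^ (-(2:ℝ)) = (ε ^ 4)⁻¹ * (1 + ‖w‖ ^ 2) ^ (-(2:ℝ)) := by
    rw [Real.mul_rpow (by positivity) (by positivity)]
    congr 1
    rw [← Real.rpow_natCast ε 2, ← Real.rpow_mul hε.le, ← Real.rpow_natCast ε 4, ← Real.rpow_neg hε.le]
    congr 1
    push_cast
    ring
  rw [h3, h4]
  field_simp

/-- bound of the logarithm -/
theorem abs_log_le {t : ℝ} (ht : 0 < t) : |Real.log t| ≤ t ^ (-(1:ℝ)) + t := by
  have h1 := Real.log_le_sub_one_of_pos ht
  have h2 := Real.log_le_sub_one_of_pos (inv_pos.2 ht)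
  rw [Real.log_inv] at h2
  rw [Real.rpow_neg_one, abs_le]
  have := inv_pos.2 ht
  constructor <;> linarith

theorem log_locInt (R : ℝ) : IntegrableOn (fun y : E 2 => ‖y‖ ^ (-(1:ℝ)) + ‖y‖) (ball 0 R) := by
  have hd : Module.finrank ℝ (E 2) = 2 := by simp [E]
  refine Integrable.add ?_ ?_
  · refine integrableOn_ball_of_norm_le_rpow (μ := (volume : Measure (E 2))) (C := 1)
      (α := 1) (by rw [hd]; omega) (by rw [hd]; norm_num) ?_ ?_
    · refine ae_of_all _ (fun x => ?_)
      rw [one_mul, Real.norm_of_nonneg (by positivity)]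
    · exact ((measurable_norm).pow_const _).aestronglyMeasurable
  · exact (continuous_norm.continuousOn.integrableOn_compact (isCompact_closedBall 0 R)).mono_set
      ball_subset_closedBall

/-- The logarithm is a fundamental solution in the plane. -/
theorem log_laplacian : ∃ c : ℝ, 0 < c ∧ ∀ φ : E 2 → ℝ, ContDiff ℝ ∞ φ → HasCompactSupport φ →
    ∀ a : E 2, ∫ y, -Real.log ‖y - a‖ * (Δ φ) y = -c * φ a := by
  set k : E 2 → ℝ := fun w => 2 * ((1 : ℝ) + ‖w‖ ^ 2) ^ (-(2:ℝ)) with hk
  have hkint : Integrable k := kint2.const_mul _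
  have hkpos : ∀ w, 0 < k w := fun w => by
    have h1 : 0 < ((1 : ℝ) + ‖w‖ ^ 2) ^ (-(2:ℝ)) := Real.rpow_pos_of_pos (by positivity) _
    exact mul_pos two_pos h1
  refine ⟨∫ w, k w, ?_, ?_⟩
  · rw [integral_pos_iff_support_of_nonneg (fun w => (hkpos w).le) hkint]
    have : Function.support k = univ := by
      ext w; simp [(hkpos w).ne']
    rw [this]
    simp
  · intro φ hφ hs a
    set e : ℕ → ℝ := fun m => 1 / ((m : ℝ) + 1) with he
    have hepos : ∀ m, 0 < e m := fun m => by positivity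
    have he1 : ∀ m, e m ≤ 1 := fun m => by
      rw [he]
      simp only
      rw [div_le_one (by positivity)]
      linarith [Nat.cast_nonneg (α := ℝ) m]
    have helim : Tendsto e atTop (𝓝 0) := tendsto_one_div_add_atTop_nhds_zero_nat
    have hLc := TP.lap_cont hφ
    have hLs := TP.lap_supp hφ hs
    have hcs : HasCompactSupport (Δ φ) := HasCompactSupport.intro hs (fun y hy => hLs y hy)
    obtain ⟨M, hM⟩ : ∃ M, ∀ y, ‖(Δ φ) y‖ ≤ M := hcs.exists_bound_of_continuous hLc
    obtain ⟨M', hM'⟩ : ∃ M, ∀ y, ‖φ y‖ ≤ M := hs.exists_bound_of_continuous hφ.continuous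
    have h0 : ∀ᵐ y : E 2, y ≠ a := by
      rw [ae_iff]; simp
    set bd : E 2 → ℝ := fun y => (‖y - a‖ ^ (-(1:ℝ)) + ‖y - a‖) + ‖y - a‖ ^ 2 with hbd
    -- left side
    have hL : Tendsto (fun m => ∫ y, le (e m) a y * (Δ φ) y) atTop
        (𝓝 (∫ y, -Real.log ‖y - a‖ * (Δ φ) y)) := by
      apply tendsto_integral_of_dominated_convergence (fun y => bd y * ‖(Δ φ) y‖)
      · intro m
        exact ((le_contDiff (hepos m) a).continuous.mul hLc).aestronglyMeasurable
      · have hK : IntegrableOn bd (tsupport φ) := by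
          obtain ⟨R, hR⟩ := hs.isCompact.isBounded.subset_ball a
          have h1 : IntegrableOn (fun y : E 2 => ‖y - a‖ ^ (-(1:ℝ)) + ‖y - a‖) (ball a R) := by
            have h2 := log_locInt R
            rw [← integrable_indicator_iff measurableSet_ball] at h2 ⊢
            have h3 := h2.comp_sub_right a
            refine h3.congr (Eventually.of_forall fun y => ?_)
            beta_reduce
            by_cases h : y ∈ ball a R
            · have h' : y - a ∈ ball (0 : E 2) R := by simpa [dist_eq_norm] using h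
              rw [indicator_of_mem h, indicator_of_mem h']
            · have h' : y - a ∉ ball (0 : E 2) R := by simpa [dist_eq_norm] using h
              rw [indicator_of_notMem h, indicator_of_notMem h']
          have h4 : IntegrableOn (fun y : E 2 => ‖y - a‖ ^ 2) (tsupport φ) := by
            have : Continuous (fun y : E 2 => ‖y - a‖ ^ 2) := by fun_prop
            exact this.continuousOn.integrableOn_compact hs.isCompact
          exact (h1.mono_set hR).add h4
        have h1 : IntegrableOn (fun y => bd y * ‖(Δ φ) y‖) (tsupport φ) := by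
          apply Integrable.mul_bdd (c := M) hK
          · exact hLc.norm.aestronglyMeasurable
          · exact ae_of_all _ (fun y => by rw [norm_norm]; exact hM y)
        rw [← integrableOn_iff_integrable_of_support_subset (s := tsupport φ)]
        · exact h1
        · intro y hy
          by_contra h
          apply hy
          simp [hLs y h]
      · intro m
        filter_upwards [h0] with y hy
        rw [norm_mul]
        apply mul_le_mul_of_nonneg_right _ (norm_nonneg _)
        have hp : 0 < ‖y - a‖ := norm_pos_iff.2 (sub_ne_zero.2 hy)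
        have hem := hepos m
        have hem1 := he1 m
        unfold le
        rw [norm_mul, Real.norm_eq_abs, Real.norm_eq_abs, abs_neg, abs_of_pos (by norm_num : (0:ℝ) < 1 / 2)]
        have h2 : Real.log (‖y - a‖ ^ 2) ≤ Real.log (‖y - a‖ ^ 2 + e m ^ 2) :=
          Real.log_le_log (by positivity) (by nlinarith)
        have h3 : Real.log (‖y - a‖ ^ 2 + e m ^ 2) ≤ ‖y - a‖ ^ 2 := by
          have := Real.log_le_sub_one_of_pos (by positivity : 0 < ‖y - a‖ ^ 2 + e m ^ 2)
          nlinarith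
        rw [Real.log_pow] at h2
        push_cast at h2
        have h4 := abs_log_le hp
        have h5 := abs_le.1 h4
        have h6 : |Real.log (‖y - a‖ ^ 2 + e m ^ 2)| ≤ 2 * (‖y - a‖ ^ (-(1:ℝ)) + ‖y - a‖) + ‖y - a‖ ^ 2 := by
          have h7 : 0 ≤ ‖y - a‖ ^ (-(1:ℝ)) := by positivity
          rw [abs_le]
          constructor
          · nlinarith [sq_nonneg ‖y - a‖]
          · nlinarith
        rw [hbd]
        simp only
        nlinarith [sq_nonneg ‖y - a‖]
      · filter_upwards [h0] with y hy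
        have hp : 0 < ‖y - a‖ := norm_pos_iff.2 (sub_ne_zero.2 hy)
        refine Tendsto.mul_const _ ?_
        unfold le
        have h1 : Tendsto (fun m => Real.log (‖y - a‖ ^ 2 + e m ^ 2)) atTop
            (𝓝 (Real.log (‖y - a‖ ^ 2 + 0 ^ 2))) := by
          refine Tendsto.log ?_ (by positivity)
          exact tendsto_const_nhds.add (helim.pow 2)
        have h2 := h1.const_mul (-(1 / 2))
        have h3 : -(1 / 2) * Real.log (‖y - a‖ ^ 2 + 0 ^ 2) = -Real.log ‖y - a‖ := by
          rw [zero_pow (by norm_num), add_zero, Real.log_pow]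
          push_cast
          ring
        rw [h3] at h2
        exact h2
    -- right side
    have hR : Tendsto (fun m => -∫ w : E 2, k w * φ (a + e m • w)) atTop (𝓝 (-∫ w : E 2, k w * φ a)) := by
      apply Tendsto.neg
      apply tendsto_integral_of_dominated_convergence (fun w => k w * M')
      · intro m
        apply AEStronglyMeasurable.mul hkint.1
        have : Continuous (fun w : E 2 => φ (a + e m • w)) := hφ.continuous.comp (by fun_prop)
        exact this.aestronglyMeasurable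
      · exact hkint.mul_const _
      · intro m
        refine ae_of_all _ (fun w => ?_)
        rw [norm_mul, Real.norm_of_nonneg (hkpos w).le]
        exact mul_le_mul_of_nonneg_left (hM' _) (hkpos w).le
      · refine ae_of_all _ (fun w => ?_)
        apply Tendsto.const_mul
        have h1 : Tendsto (fun m => a + e m • w) atTop (𝓝 (a + (0 : ℝ) • w)) :=
          tendsto_const_nhds.add (helim.smul_const w)
        rw [zero_smul, add_zero] at h1
        exact (hφ.continuous.tendsto a).comp h1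
    have heq : ∀ m, ∫ y, le (e m) a y * (Δ φ) y = -∫ w : E 2, k w * φ (a + e m • w) := by
      intro m
      rw [green2 (hepos m) hφ hs a, subst2 (hepos m) φ a]
    have := tendsto_nhds_unique hL ((tendsto_congr heq).2 hR)
    rw [this, integral_mul_const]
    ring

/-- the kernel is a fundamental solution up to a positive constant -/
theorem Gam_laplacian {N : ℕ} (hN : 2 ≤ N) : ∃ c : ℝ, 0 < c ∧ ∀ φ : E N → ℝ, ContDiff ℝ ∞ φ →
    HasCompactSupport φ → ∀ a : E N, ∫ y, Gam N (y - a) * (Δ φ) y = -c * φ a := by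
  rcases Nat.eq_or_lt_of_le hN with h | h
  · subst h
    obtain ⟨c, hc, H⟩ := log_laplacian
    have hpi := Real.pi_pos
    refine ⟨c / (2 * Real.pi), by positivity, fun φ hφ hs a => ?_⟩
    have h1 := H φ hφ hs a
    have h2 : ∀ y : E 2, Gam 2 (y - a) * (Δ φ) y = (1 / (2 * Real.pi)) * (-Real.log ‖y - a‖ * (Δ φ) y) := by
      intro y
      unfold Gam
      rw [if_pos rfl]
      ring
    simp_rw [h2]
    rw [integral_const_mul, h1]
    ring
  · have h3 : 3 ≤ N := h
    haveI : Nonempty (Fin N) := ⟨⟨0, by omega⟩⟩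
    obtain ⟨c, hc, H⟩ := TP.newton_laplacian h3
    have hN3 : (3:ℝ) ≤ N := by exact_mod_cast h3
    set K : ℝ := N * (N - 2) * volume.real (Metric.ball (0 : E N) 1) with hK
    have hv : 0 < volume.real (Metric.ball (0 : E N) 1) := by
      rw [Measure.real, ENNReal.toReal_pos_iff]
      exact ⟨measure_ball_pos _ _ one_pos, measure_ball_lt_top⟩
    have hKp : 0 < K := by
      rw [hK]
      have : (0:ℝ) < N - 2 := by linarith
      positivity
    refine ⟨c / K, by positivity, fun φ hφ hs a => ?_⟩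
    have h1 := H φ hφ hs a
    have h0 : ∀ᵐ y : E N, y ≠ a := by
      rw [ae_iff]; simp
    have h2 : ∫ y, Gam N (y - a) * (Δ φ) y = ∫ y, (1 / K) * ((newton a y).toReal * (Δ φ) y) := by
      apply integral_congr_ae
      filter_upwards [h0] with y hy
      unfold Gam
      rw [if_neg (by omega), TP.newton_toReal h3 a y hy]
      rw [← hK]
      have h4 : -((N:ℝ) - 2) = 2 - N := by ring
      rw [h4]
      ring
    rw [h2, integral_const_mul, h1]
    ring

/-- bound for the kernel -/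
theorem Gam_bound {N : ℕ} (hN : 2 ≤ N) : ∃ k : ℝ → ℝ, Measurable k ∧ (∀ t, 0 ≤ k t) ∧
    (∀ x : E N, |Gam N x| ≤ k ‖x‖) ∧ ∀ R, IntegrableOn (fun y : E N => k ‖y‖) (ball 0 R) := by
  rcases Nat.eq_or_lt_of_le hN with h | h
  · subst h
    refine ⟨fun t => |t| ^ (-(1:ℝ)) + |t|, by fun_prop, fun t => by positivity, fun x => ?_, fun R => ?_⟩
    · unfold Gam
      rw [if_pos rfl]
      simp only [abs_norm]
      rcases eq_or_ne x 0 with hx | hx
      · subst hx
        rw [norm_zero, Real.log_zero, neg_zero, zero_div, abs_zero]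
        positivity
      · have hp : 0 < ‖x‖ := norm_pos_iff.2 hx
        have h1 := abs_log_le hp
        rw [abs_div, abs_neg, abs_of_pos (by positivity : 0 < 2 * Real.pi)]
        refine (div_le_self (abs_nonneg _) ?_).trans h1
        linarith [Real.pi_gt_three]
    · simp only [abs_norm]
      exact log_locInt R
  · have h3 : 3 ≤ N := h
    set K : ℝ := N * (N - 2) * volume.real (Metric.ball (0 : E N) 1) with hK
    have hN3 : (3:ℝ) ≤ N := by exact_mod_cast h3
    haveI : Nonempty (Fin N) := ⟨⟨0, by omega⟩⟩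
    have hv : 0 < volume.real (Metric.ball (0 : E N) 1) := by
      rw [Measure.real, ENNReal.toReal_pos_iff]
      exact ⟨measure_ball_pos _ _ one_pos, measure_ball_lt_top⟩
    have hKp : 0 < K := by
      rw [hK]
      have : (0:ℝ) < N - 2 := by linarith
      positivity
    refine ⟨fun t => |t| ^ (2 - (N:ℝ)) / K, by fun_prop, fun t => by positivity, fun x => ?_, fun R => ?_⟩
    · unfold Gam
      rw [if_neg (by omega)]
      simp only [abs_norm]
      rw [← hK, abs_of_nonneg (by positivity)]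
    · simp only [abs_norm]
      have h1 := TP.rpow_intOn h3 (n := N) R
      have h4 : -((N:ℝ) - 2) = 2 - N := by ring
      rw [h4] at h1
      exact h1.div_const K

end Pool.Agent.R243.HP
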