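import Pool.Agent.R243.HP.Gam

set_option autoImplicit false

/-!
# Newtonian potentials of signed measures: the bump estimate
-/

namespace Pool.Agent.R243.HP

open MeasureTheory Set Filter Topology Metric
open scoped InnerProductSpace ContDiff Laplacian ENNReal
open Pool.Agent.Helper486.TP (newton E)
open Pool.Agent.Helper486

/-- The Newtonian potential of a signed measure: `∫ Γ(x - y) dμ(y)`, the integral against a signed
measure being the difference of the integrals against its positive and negative parts. -/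
noncomputable def pot {N : ℕ} (μ : SignedMeasure (EuclideanSpace ℝ (Fin N)))
    (x : EuclideanSpace ℝ (Fin N)) : ℝ :=
  (∫ y, Gam N (x - y) ∂μ.toJordanDecomposition.posPart) -
    ∫ y, Gam N (x - y) ∂μ.toJordanDecomposition.negPart

section
variable {N : ℕ}

theorem lap_bound {φ : E N → ℝ} (hφ : ContDiff ℝ ∞ φ) (hs : HasCompactSupport φ) :
    ∃ M, 0 ≤ M ∧ ∀ y, ‖(Δ φ) y‖ ≤ M := by
  have hcs : HasCompactSupport (Δ φ) := HasCompactSupport.intro hs (fun y hy => TP.lap_supp hφ hs y hy)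
  obtain ⟨M, hM⟩ := hcs.exists_bound_of_continuous (TP.lap_cont hφ)
  exact ⟨max M 0, le_max_right _ _, fun y => (hM y).trans (le_max_left _ _)⟩

theorem fub_int (hN : 2 ≤ N) {ν : Measure (E N)} [IsFiniteMeasure ν] {Ω : Set (E N)}
    (hΩ : Bornology.IsBounded Ω) (hν : ν Ωᶜ = 0) {φ : E N → ℝ} (hφ : ContDiff ℝ ∞ φ)
    (hs : HasCompactSupport φ) :
    Integrable (fun p : E N × E N => Gam N (p.1 - p.2) * (Δ φ) p.1) (volume.prod ν) := by
  obtain ⟨k, hkm, hk0, hkb, hki⟩ := Gam_bound hN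
  obtain ⟨M, hM0, hM⟩ := lap_bound hφ hs
  obtain ⟨R0, hR0⟩ := hs.isCompact.isBounded.subset_ball (0 : E N)
  obtain ⟨R1, hR1⟩ := hΩ.subset_ball (0 : E N)
  have hm : AEStronglyMeasurable (fun p : E N × E N => Gam N (p.1 - p.2) * (Δ φ) p.1)
      (volume.prod ν) := by
    have h1 : Measurable (fun p : E N × E N => Gam N (p.1 - p.2)) :=
      (Gam_meas N).comp (measurable_fst.sub measurable_snd)
    have h2 : Measurable (fun p : E N × E N => (Δ φ) p.1) :=
      (TP.lap_cont hφ).measurable.comp measurable_fst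
    exact (h1.mul h2).aestronglyMeasurable
  set dom : E N → ℝ := (ball (0 : E N) (R0 + R1)).indicator (fun z => k ‖z‖) with hdom
  have hdi : Integrable dom := (integrable_indicator_iff measurableSet_ball).2 (hki _)
  have hd0 : ∀ z, 0 ≤ dom z := fun z => indicator_nonneg (fun z _ => hk0 _) z
  have hae : ∀ᵐ y ∂ν, y ∈ Ω := by
    rw [ae_iff]
    exact hν
  have hbd : ∀ y ∈ Ω, ∀ x, ‖Gam N (x - y) * (Δ φ) x‖ ≤ M * dom (x - y) := by
    intro y hy x
    by_cases hx : x ∈ tsupport φ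
    · have h1 : x - y ∈ ball (0 : E N) (R0 + R1) := by
        have ha := hR0 hx
        have hb := hR1 hy
        rw [mem_ball_zero_iff] at ha hb ⊢
        have := norm_sub_le x y
        linarith
      rw [norm_mul, Real.norm_eq_abs, hdom, indicator_of_mem h1, mul_comm]
      exact mul_le_mul (hM x) (hkb _) (abs_nonneg _) hM0
    · rw [TP.lap_supp hφ hs x hx, mul_zero, norm_zero]
      exact mul_nonneg hM0 (hd0 _)
  rw [integrable_prod_iff' hm]
  constructor
  · filter_upwards [hae] with y hy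
    refine Integrable.mono' ((hdi.comp_sub_right y).const_mul M) ?_ (Eventually.of_forall (hbd y hy))
    have h1 : Measurable (fun x : E N => Gam N (x - y) * (Δ φ) x) :=
      ((Gam_meas N).comp (measurable_id.sub_const y)).mul (TP.lap_cont hφ).measurable
    exact h1.aestronglyMeasurable
  · refine Integrable.of_bound (C := M * ∫ z, dom z) ?_ ?_
    · exact hm.norm.prod_swap.integral_prod_right'
    · filter_upwards [hae] with y hy
      rw [Real.norm_of_nonneg (integral_nonneg fun x => norm_nonneg _)]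
      have h2 : ∫ x, ‖Gam N (x - y) * (Δ φ) x‖ ≤ ∫ x, M * dom (x - y) :=
        integral_mono_of_nonneg (Eventually.of_forall fun x => norm_nonneg _)
          ((hdi.comp_sub_right y).const_mul M) (Eventually.of_forall (hbd y hy))
      refine h2.trans (le_of_eq ?_)
      rw [integral_const_mul, integral_sub_right_eq_self]

theorem fub (hN : 2 ≤ N) {c : ℝ} (H : ∀ φ : E N → ℝ, ContDiff ℝ ∞ φ →
    HasCompactSupport φ → ∀ a : E N, ∫ y, Gam N (y - a) * (Δ φ) y = -c * φ a)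
    {ν : Measure (E N)} [IsFiniteMeasure ν] {Ω : Set (E N)}
    (hΩ : Bornology.IsBounded Ω) (hν : ν Ωᶜ = 0) {φ : E N → ℝ} (hφ : ContDiff ℝ ∞ φ)
    (hs : HasCompactSupport φ) :
    Integrable (fun x => (∫ y, Gam N (x - y) ∂ν) * (Δ φ) x) ∧
      ∫ x, (∫ y, Gam N (x - y) ∂ν) * (Δ φ) x = -c * ∫ y, φ y ∂ν := by
  have h1 := fub_int hN hΩ hν hφ hs
  have h2 : ∀ x, (∫ y, Gam N (x - y) ∂ν) * (Δ φ) x = ∫ y, Gam N (x - y) * (Δ φ) x ∂ν := by
    intro x
    rw [integral_mul_const]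
  constructor
  · simp_rw [h2]
    exact h1.integral_prod_left
  · simp_rw [h2]
    rw [integral_integral_swap h1]
    simp_rw [H φ hφ hs]
    rw [integral_const_mul]

/-- the potential identity -/
theorem pot_identity (hN : 2 ≤ N) {c : ℝ} (H : ∀ φ : E N → ℝ, ContDiff ℝ ∞ φ →
    HasCompactSupport φ → ∀ a : E N, ∫ y, Gam N (y - a) * (Δ φ) y = -c * φ a)
    {μ : SignedMeasure (E N)} {Ω : Set (E N)} (hΩ : Bornology.IsBounded Ω)
    (hμ : μ.totalVariation Ωᶜ = 0) {φ : E N → ℝ} (hφ : ContDiff ℝ ∞ φ)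
    (hs : HasCompactSupport φ) :
    Integrable (fun x => pot μ x * (Δ φ) x) ∧ ∫ x, pot μ x * (Δ φ) x =
      -c * ((∫ y, φ y ∂μ.toJordanDecomposition.posPart) - ∫ y, φ y ∂μ.toJordanDecomposition.negPart) := by
  have h0 : μ.toJordanDecomposition.posPart Ωᶜ = 0 ∧ μ.toJordanDecomposition.negPart Ωᶜ = 0 := by
    unfold SignedMeasure.totalVariation at hμ
    rw [Measure.add_apply] at hμ
    exact add_eq_zero.1 hμ
  obtain ⟨h1, h2⟩ := fub hN H (ν := μ.toJordanDecomposition.posPart) hΩ h0.1 hφ hs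
  obtain ⟨h3, h4⟩ := fub hN H (ν := μ.toJordanDecomposition.negPart) hΩ h0.2 hφ hs
  have h5 : ∀ x, pot μ x * (Δ φ) x = (∫ y, Gam N (x - y) ∂μ.toJordanDecomposition.posPart) * (Δ φ) x -
      (∫ y, Gam N (x - y) ∂μ.toJordanDecomposition.negPart) * (Δ φ) x := by
    intro x
    unfold pot
    ring
  constructor
  · simp_rw [h5]
    exact h1.sub h3
  · simp_rw [h5]
    rw [integral_sub h1 h3, h2, h4]
    ring

theorem lap_integral {φ : E N → ℝ} (hφ : ContDiff ℝ ∞ φ) (hs : HasCompactSupport φ) :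
    ∫ y, (Δ φ) y = 0 := by
  have hD : ∀ {ψ : E N → ℝ}, ContDiff ℝ ∞ ψ → ∀ v : E N, ContDiff ℝ ∞ (fun z => fderiv ℝ ψ z v) := by
    intro ψ h v
    exact (h.fderiv_right (m := ∞) (by norm_cast)).clm_apply contDiff_const
  simp_rw [TP.nl_lap_eq hφ]
  rw [integral_finsetSum]
  · refine Finset.sum_eq_zero fun i _ => ?_
    have h := TP.int_parts (fun _ : E N => (1:ℝ)) (fun z => fderiv ℝ φ z (EuclideanSpace.basisFun (Fin N) ℝ i))
      contDiff_const ((hD hφ _).of_le (by norm_cast)) (hs.fderiv_apply (𝕜 := ℝ) _)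
      (EuclideanSpace.basisFun (Fin N) ℝ i)
    simp only [one_mul] at h
    rw [h]
    simp
  · intro i _
    refine Continuous.integrable_of_hasCompactSupport (hD (hD hφ _) _).continuous ?_
    exact (hs.fderiv_apply (𝕜 := ℝ) _).fderiv_apply (𝕜 := ℝ) _

/-! ### the bump -/

/-- the reference bump -/
noncomputable def psi (N : ℕ) : E N → ℝ :=
  (⟨1 / 2, 1, by norm_num, by norm_num⟩ : ContDiffBump (0 : E N))

theorem psi_smooth : ContDiff ℝ ∞ (psi N) :=
  (⟨1 / 2, 1, by norm_num, by norm_num⟩ : ContDiffBump (0 : E N)).contDiff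

theorem psi_cpt : HasCompactSupport (psi N) :=
  (⟨1 / 2, 1, by norm_num, by norm_num⟩ : ContDiffBump (0 : E N)).hasCompactSupport

theorem psi_one {x : E N} (h : ‖x‖ ≤ 1 / 2) : psi N x = 1 :=
  (⟨1 / 2, 1, by norm_num, by norm_num⟩ : ContDiffBump (0 : E N)).one_of_mem_closedBall (by simpa using h)

theorem psi_zero {x : E N} (h : 1 ≤ ‖x‖) : psi N x = 0 :=
  (⟨1 / 2, 1, by norm_num, by norm_num⟩ : ContDiffBump (0 : E N)).zero_of_le_dist (by simpa using h)

theorem psi_nonneg (x : E N) : 0 ≤ psi N x :=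
  (⟨1 / 2, 1, by norm_num, by norm_num⟩ : ContDiffBump (0 : E N)).nonneg

theorem psi_le (x : E N) : psi N x ≤ 1 :=
  (⟨1 / 2, 1, by norm_num, by norm_num⟩ : ContDiffBump (0 : E N)).le_one

/-- the scaled bump -/
noncomputable def ph (x0 : E N) (r : ℝ) (y : E N) : ℝ := psi N (r⁻¹ • (y - x0))

theorem ph_smooth (x0 : E N) (r : ℝ) : ContDiff ℝ ∞ (ph x0 r) := by
  unfold ph
  exact psi_smooth.comp (by fun_prop)

theorem ph_one {x0 : E N} {r : ℝ} (hr : 0 < r) {y : E N} (h : y ∈ closedBall x0 (r / 2)) :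
    ph x0 r y = 1 := by
  unfold ph
  apply psi_one
  rw [mem_closedBall, dist_eq_norm] at h
  rw [norm_smul, norm_inv, Real.norm_of_nonneg hr.le, inv_mul_le_iff₀ hr]
  linarith

theorem ph_zero {x0 : E N} {r : ℝ} (hr : 0 < r) {y : E N} (h : y ∉ closedBall x0 r) :
    ph x0 r y = 0 := by
  unfold ph
  apply psi_zero
  rw [mem_closedBall, dist_eq_norm, not_le] at h
  rw [norm_smul, norm_inv, Real.norm_of_nonneg hr.le, le_inv_mul_iff₀ hr]
  linarith

theorem ph_supp {x0 : E N} {r : ℝ} (hr : 0 < r) : tsupport (ph x0 r) ⊆ closedBall x0 r := by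
  refine closure_minimal (fun y hy => ?_) isClosed_closedBall
  by_contra h
  exact hy (ph_zero hr h)

theorem ph_cpt {x0 : E N} {r : ℝ} (hr : 0 < r) : HasCompactSupport (ph x0 r) :=
  HasCompactSupport.intro (isCompact_closedBall x0 r) fun _ hy => ph_zero hr hy

theorem ph_lap (x0 : E N) (r : ℝ) (y : E N) :
    (Δ (ph x0 r)) y = (r⁻¹) ^ 2 * (Δ (psi N)) (r⁻¹ • (y - x0)) := by
  rw [TP.nl_lap_eq (ph_smooth x0 r), TP.nl_lap_eq psi_smooth, Finset.mul_sum]
  refine Finset.sum_congr rfl fun i _ => ?_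
  set v := EuclideanSpace.basisFun (Fin N) ℝ i with hv
  have hL : ∀ z : E N, HasFDerivAt (fun y : E N => r⁻¹ • (y - x0)) (r⁻¹ • ContinuousLinearMap.id ℝ (E N)) z :=
    fun z => ((hasFDerivAt_id z).sub_const x0).const_smul r⁻¹
  have comp : ∀ {g : E N → ℝ}, ContDiff ℝ ∞ g → ∀ z,
      fderiv ℝ (fun y => g (r⁻¹ • (y - x0))) z v = r⁻¹ * fderiv ℝ g (r⁻¹ • (z - x0)) v := by
    intro g hg z
    have h1 : HasFDerivAt g (fderiv ℝ g (r⁻¹ • (z - x0))) (r⁻¹ • (z - x0)) :=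
      (hg.differentiable (by norm_cast) _).hasFDerivAt
    have h2 := (h1.comp z (hL z)).fderiv
    have h3 : fderiv ℝ (fun y => g (r⁻¹ • (y - x0))) z = _ := h2
    rw [h3]
    simp
  have h4 : (fun z => fderiv ℝ (ph x0 r) z v) = fun z => r⁻¹ * (fun w => fderiv ℝ (psi N) w v) (r⁻¹ • (z - x0)) := by
    ext z
    exact comp psi_smooth z
  have hD : ContDiff ℝ ∞ (fun w => fderiv ℝ (psi N) w v) :=
    (psi_smooth.fderiv_right (m := ∞) (by norm_cast)).clm_apply contDiff_const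
  rw [h4]
  have h5 : fderiv ℝ (fun z => r⁻¹ * (fun w => fderiv ℝ (psi N) w v) (r⁻¹ • (z - x0))) y v =
      r⁻¹ * fderiv ℝ (fun z => (fun w => fderiv ℝ (psi N) w v) (r⁻¹ • (z - x0))) y v := by
    rw [fderiv_const_mul]
    · rfl
    · exact (hD.comp (by fun_prop : ContDiff ℝ ∞ fun z : E N => r⁻¹ • (z - x0))).differentiable
        (by norm_cast) y
  rw [h5, comp hD]
  ring

theorem ph_lap_int {x0 : E N} {r : ℝ} (hr : 0 < r) :
    ∫ y, ‖(Δ (ph x0 r)) y‖ = (r⁻¹) ^ 2 * r ^ N * ∫ w, ‖(Δ (psi N)) w‖ := by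
  simp_rw [ph_lap, norm_mul, Real.norm_of_nonneg (by positivity : 0 ≤ (r⁻¹) ^ 2)]
  rw [integral_const_mul]
  have e1 : ∫ a : E N, ‖(Δ (psi N)) (r⁻¹ • (a - x0))‖ = ∫ a : E N, ‖(Δ (psi N)) (r⁻¹ • a)‖ :=
    integral_sub_right_eq_self (fun y : E N => ‖(Δ (psi N)) (r⁻¹ • y)‖) x0
  have e2 := Measure.integral_comp_smul_of_nonneg (volume : Measure (E N))
    (fun w => ‖(Δ (psi N)) w‖) r⁻¹ (hR := (inv_pos.2 hr).le)
  have hd : Module.finrank ℝ (E N) = N := by simp [E]
  rw [e1, e2, hd, inv_pow r N, inv_inv, smul_eq_mul]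
  ring

/-- The bump estimate. -/
theorem key (hN : 2 ≤ N) {μ : SignedMeasure (E N)} {Ω : Set (E N)} (hΩ : Bornology.IsBounded Ω)
    (hμ : μ.totalVariation Ωᶜ = 0) {β : ℝ} (hβ : 0 < β) {v : E N → ℝ} {H : ℝ} (hH : 0 ≤ H)
    (hv : ∀ x ∈ Ω, ∀ y ∈ Ω, |v x - v y| ≤ H * ‖x - y‖ ^ β)
    (hae : ∀ᵐ x ∂(volume.restrict Ω), pot μ x = v x) (hΩm : MeasurableSet Ω) :
    ∃ C : ℝ, 0 ≤ C ∧ ∀ x0 r, 0 < r → closedBall x0 r ⊆ Ω →
      |(∫ y, ph x0 r y ∂μ.toJordanDecomposition.posPart) -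
        ∫ y, ph x0 r y ∂μ.toJordanDecomposition.negPart| ≤ C * r ^ ((N:ℝ) - 2 + β) := by
  obtain ⟨c, hc, hG⟩ := Gam_laplacian hN
  set I0 : ℝ := ∫ w : E N, ‖(Δ (psi N)) w‖ with hI0
  have hI0n : 0 ≤ I0 := integral_nonneg fun _ => norm_nonneg _
  refine ⟨H * I0 / c, by positivity, fun x0 r hr hball => ?_⟩
  obtain ⟨h1, h2⟩ := pot_identity hN hG hΩ hμ (ph_smooth x0 r) (ph_cpt (x0 := x0) hr)
  have hx0 : x0 ∈ Ω := hball (mem_closedBall_self hr.le)
  have hzero : ∀ y, y ∉ closedBall x0 r → (Δ (ph x0 r)) y = 0 := fun y hy =>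
    TP.lap_supp (ph_smooth x0 r) (ph_cpt hr) y fun h => hy (ph_supp hr h)
  have hae' : (fun x => pot μ x * (Δ (ph x0 r)) x) =ᵐ[volume] fun x => v x * (Δ (ph x0 r)) x := by
    have h3 := (ae_restrict_iff' hΩm).1 hae
    filter_upwards [h3] with x hx
    by_cases hxb : x ∈ closedBall x0 r
    · rw [hx (hball hxb)]
    · rw [hzero x hxb, mul_zero, mul_zero]
  have h4 : Integrable (fun x => v x * (Δ (ph x0 r)) x) := h1.congr hae'
  have hli : Integrable (fun x => (Δ (ph x0 r)) x) := by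
    refine (TP.lap_cont (ph_smooth x0 r)).integrable_of_hasCompactSupport ?_
    exact HasCompactSupport.intro (isCompact_closedBall x0 r) hzero
  have h5 : ∫ x, (v x - v x0) * (Δ (ph x0 r)) x =
      -c * ((∫ y, ph x0 r y ∂μ.toJordanDecomposition.posPart) -
        ∫ y, ph x0 r y ∂μ.toJordanDecomposition.negPart) := by
    rw [← h2, integral_congr_ae hae']
    simp_rw [sub_mul]
    rw [integral_sub h4 (hli.const_mul _), integral_const_mul, lap_integral (ph_smooth x0 r) (ph_cpt hr),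
      mul_zero, sub_zero]
  have h6 : ‖∫ x, (v x - v x0) * (Δ (ph x0 r)) x‖ ≤ ∫ x, H * r ^ β * ‖(Δ (ph x0 r)) x‖ := by
    refine norm_integral_le_of_norm_le (hli.norm.const_mul _) (Eventually.of_forall fun x => ?_)
    by_cases hxb : x ∈ closedBall x0 r
    · rw [norm_mul]
      refine mul_le_mul_of_nonneg_right ?_ (norm_nonneg _)
      rw [Real.norm_eq_abs]
      refine (hv x (hball hxb) x0 hx0).trans (mul_le_mul_of_nonneg_left ?_ hH)
      rw [mem_closedBall, dist_eq_norm] at hxb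
      exact Real.rpow_le_rpow (norm_nonneg _) hxb hβ.le
    · rw [hzero x hxb, mul_zero, norm_zero, mul_zero]
  rw [h5, integral_const_mul, ph_lap_int hr, norm_mul, norm_neg, Real.norm_of_nonneg hc.le,
    Real.norm_eq_abs] at h6
  have h7 : r ^ β * ((r⁻¹) ^ 2 * r ^ N) = r ^ ((N:ℝ) - 2 + β) := by
    rw [Real.rpow_add hr, Real.rpow_sub hr, Real.rpow_natCast]
    have : r ^ (2:ℝ) = r ^ 2 := by
      rw [← Real.rpow_natCast]
      norm_num
    rw [this]
    field_simp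
  have h8 : H * r ^ β * ((r⁻¹) ^ 2 * r ^ N * I0) = H * I0 * r ^ ((N:ℝ) - 2 + β) := by
    rw [← h7]
    ring
  rw [h8] at h6
  rw [div_mul_eq_mul_div, le_div_iff₀ hc, mul_comm _ c]
  exact h6

end

end Pool.Agent.R243.HP
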